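import Pool.Agent.Y754.SD.Basic

/-!
# A sparse set whose subsets of positive relative lower density have large difference sets
-/

set_option autoImplicit false

open Filter Finset

namespace Pool.Agent.Y754.SD

open Pool.Agent.Results.MP_5a03e9_nt.NonSyndetic

/-- a nonempty lacunary finite set of positive integers -/
def Good (F : Finset ℕ) : Prop :=
  F.Nonempty ∧ (∀ x ∈ F, 1 ≤ x) ∧ ∀ x ∈ F, ∀ y ∈ F, x < y → 2 * x ≤ y

lemma good_one : Good {1} := by
  refine ⟨⟨1, by simp⟩, ?_, ?_⟩
  · intro x hx
    rw [mem_singleton] at hx; omega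
  · intro x hx y hy h
    rw [mem_singleton] at hx hy; omega

/-- a sequence that takes every finite set as a value infinitely often -/
def raw (i : ℕ) : Finset ℕ := (Encodable.decode (α := Finset ℕ) (Nat.unpair i).1).getD {1}

open Classical in
/-- a sequence that takes every good finite set as a value infinitely often -/
noncomputable def fam (i : ℕ) : Finset ℕ := if Good (raw i) then raw i else {1}

lemma raw_pair (F : Finset ℕ) (n : ℕ) : raw (Nat.pair (Encodable.encode F) n) = F := by
  unfold raw
  rw [Nat.unpair_pair]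
  simp only [Encodable.encodek, Option.getD_some]

lemma fam_good (i : ℕ) : Good (fam i) := by
  unfold fam
  split_ifs with h
  · exact h
  · exact good_one

lemma fam_surj (F : Finset ℕ) (hF : Good F) (n : ℕ) : ∃ i, n ≤ i ∧ fam i = F := by
  refine ⟨Nat.pair (Encodable.encode F) n, Nat.right_le_pair _ _, ?_⟩
  unfold fam
  rw [if_pos (by rw [raw_pair]; exact hF), raw_pair]

/-- the distance of two consecutive copies of `fam i` in the block number `i` -/
noncomputable def gap (i : ℕ) : ℕ := (fam i).sup id + 1 + i

/-- the beginning of the block number `i` -/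
noncomputable def start : ℕ → ℕ
  | 0 => 0
  | i + 1 => start i + (start i + 1) * gap i

lemma start_succ (i : ℕ) : start (i + 1) = start i + (start i + 1) * gap i := rfl

lemma gap_pos (i : ℕ) : 1 ≤ gap i := by unfold gap; omega

lemma lt_gap {i x : ℕ} (h : x ∈ fam i) : x + i + 1 ≤ gap i := by
  have : x ≤ (fam i).sup id := Finset.le_sup (f := id) h
  unfold gap
  omega

lemma start_lt (i : ℕ) : start i < start (i + 1) := by
  rw [start_succ]
  have := gap_pos i
  nlinarith

lemma start_mono : StrictMono start := strictMono_nat_of_lt_succ start_lt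

lemma le_start (i : ℕ) : i ≤ start i := start_mono.id_le i

/-- the set made of the blocks: the block number `i` consists of `start i + 1` copies of the
finite set `fam i` -/
def blockSet : Set ℕ :=
  {n | ∃ i t x : ℕ, t < start i + 1 ∧ x ∈ fam i ∧ n = start i + t * gap i + x}

lemma pos_range {i t x n : ℕ} (ht : t < start i + 1) (hx : x ∈ fam i)
    (hn : n = start i + t * gap i + x) : start i < n ∧ n < start (i + 1) := by
  have h1 := (fam_good i).2.1 x hx
  have h2 := lt_gap hx
  have h3 : (t + 1) * gap i ≤ (start i + 1) * gap i := Nat.mul_le_mul_right _ (by omega)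
  have h4 : (t + 1) * gap i = t * gap i + gap i := by ring
  rw [start_succ]
  constructor <;> omega

lemma pos_sep {i t x n i' t' x' n' : ℕ} (ht : t < start i + 1) (hx : x ∈ fam i)
    (hn : n = start i + t * gap i + x) (hx' : x' ∈ fam i')
    (hn' : n' = start i' + t' * gap i' + x') (h : i < i' ∨ (i = i' ∧ t < t')) :
    n + i < n' := by
  have h2 := lt_gap hx
  have h1 := (fam_good i').2.1 x' hx'
  rcases h with h | ⟨h, h'⟩
  · have h5 : start (i + 1) ≤ start i' := start_mono.monotone h
    have h3 : (t + 1) * gap i ≤ (start i + 1) * gap i := Nat.mul_le_mul_right _ (by omega)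
    have h4 : (t + 1) * gap i = t * gap i + gap i := by ring
    rw [start_succ] at h5
    omega
  · subst h
    have h3 : (t + 1) * gap i ≤ t' * gap i := Nat.mul_le_mul_right _ (by omega)
    have h4 : (t + 1) * gap i = t * gap i + gap i := by ring
    omega

lemma good_window (F : Finset ℕ) (hF : Good F) (k : ℕ) (S : Finset ℕ) (hS : S ⊆ F)
    (hd : ∀ x ∈ S, ∀ y ∈ S, x < y → y < x + 2 ^ k) : S.card ≤ k + 1 := by
  have hmaps : ∀ x ∈ S, (if x < 2 ^ k then Nat.log 2 x else k) ∈ range (k + 1) := by
    intro x hx
    rw [mem_range]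
    split_ifs with h
    · have := Nat.log_mono_right (b := 2) h.le
      rw [Nat.log_pow (by norm_num)] at this
      omega
    · omega
  have hlt : ∀ x ∈ S, ∀ y ∈ S, x < y → (if x < 2 ^ k then Nat.log 2 x else k) ≠
      (if y < 2 ^ k then Nat.log 2 y else k) := by
    intro x hx y hy hxy
    have h1 := hF.2.2 x (hS hx) y (hS hy) hxy
    have h2 := hd x hx y hy hxy
    have h3 := hF.2.1 x (hS hx)
    have hx2 : x < 2 ^ k := by omega
    have hlx : Nat.log 2 x < k := Nat.log_lt_of_lt_pow (by omega) hx2
    rw [if_pos hx2]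
    split_ifs with h
    · have h4 : Nat.log 2 (2 * x) ≤ Nat.log 2 y := Nat.log_mono_right h1
      have h5 : Nat.log 2 (2 * x) = Nat.log 2 x + 1 := by
        rw [mul_comm]
        exact Nat.log_mul_base (by norm_num) (by omega)
      omega
    · omega
  have hinj : Set.InjOn (fun x => if x < 2 ^ k then Nat.log 2 x else k) (↑S : Set ℕ) := by
    intro x hx y hy hxy
    simp only at hxy
    rcases lt_trichotomy x y with h | h | h
    · exact absurd hxy (hlt x hx y hy h)
    · exact h
    · exact absurd hxy.symm (hlt y hy x hx h)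
  have := card_le_card_of_injOn _ hmaps hinj
  rwa [card_range] at this

lemma blockSet_banach : upperBanachDensity blockSet = 0 := by
  classical
  refine banach_zero _ fun k => ⟨start (2 ^ k), fun M hM => ?_⟩
  set W := 2 ^ k with hW
  by_cases hne : ((Ico M (M + W)).filter (fun n => n ∈ blockSet)).Nonempty
  · obtain ⟨n0, hn0⟩ := hne
    simp only [mem_filter, mem_Ico] at hn0
    obtain ⟨⟨h1, h2⟩, i, t, x, ht, hx, hn⟩ := hn0
    have hlarge : ∀ i t x n : ℕ, t < start i + 1 → x ∈ fam i → n = start i + t * gap i + x →
        M ≤ n → W ≤ i := by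
      intro i t x n ht hx hn hMn
      by_contra hlt
      push Not at hlt
      have h3 := (pos_range ht hx hn).2
      have h4 : start (i + 1) ≤ start W := start_mono.monotone hlt
      omega
    have hcopy : ∀ n ∈ (Ico M (M + W)).filter (fun n => n ∈ blockSet),
        ∃ y ∈ fam i, n = start i + t * gap i + y := by
      intro n' hn'
      simp only [mem_filter, mem_Ico] at hn'
      obtain ⟨⟨h3, h4⟩, i', t', x', ht', hx', hn''⟩ := hn'
      rcases lt_trichotomy i i' with h | h | h
      · exfalso
        have h5 := pos_sep ht hx hn hx' hn'' (Or.inl h)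
        have h6 := hlarge i t x n0 ht hx hn h1
        omega
      · rcases lt_trichotomy t t' with h' | h' | h'
        · exfalso
          have h5 := pos_sep ht hx hn hx' hn'' (Or.inr ⟨h, h'⟩)
          have h6 := hlarge i t x n0 ht hx hn h1
          omega
        · subst h; subst h'
          exact ⟨x', hx', hn''⟩
        · exfalso
          have h5 := pos_sep ht' hx' hn'' hx hn (Or.inr ⟨h.symm, h'⟩)
          have h6 := hlarge i' t' x' n' ht' hx' hn'' h3
          omega
      · exfalso
        have h5 := pos_sep ht' hx' hn'' hx hn (Or.inl h)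
        have h6 := hlarge i' t' x' n' ht' hx' hn'' h3
        omega
    set S := (fam i).filter (fun y => start i + t * gap i + y ∈
      (Ico M (M + W)).filter (fun n => n ∈ blockSet)) with hSdef
    have hScard : ((Ico M (M + W)).filter (fun n => n ∈ blockSet)).card ≤ S.card := by
      refine (card_le_card ?_).trans (card_image_le (s := S)
        (f := fun y => start i + t * gap i + y))
      intro n hn'
      obtain ⟨y, hy, hny⟩ := hcopy n hn'
      rw [mem_image]
      refine ⟨y, ?_, hny.symm⟩
      rw [hSdef, mem_filter]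
      refine ⟨hy, ?_⟩
      rw [← hny]; exact hn'
    have hS2 : S.card ≤ k + 1 := by
      refine good_window (fam i) (fam_good i) k S (filter_subset _ _) ?_
      intro a ha b hb hab
      rw [hSdef] at ha hb
      simp only [mem_filter, mem_Ico] at ha hb
      omega
    unfold count
    omega
  · unfold count
    rw [not_nonempty_iff_eq_empty] at hne
    rw [hne]
    simp

lemma blockSet_infinite : blockSet.Infinite := by
  refine Set.infinite_of_not_bddAbove ?_
  rintro ⟨B, hB⟩
  obtain ⟨x, hx⟩ := (fam_good B).1
  have h1 : start B + 0 * gap B + x ∈ blockSet := ⟨B, 0, x, by omega, hx, rfl⟩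
  have h2 := hB h1
  have h3 := le_start B
  have h4 := (fam_good B).2.1 x hx
  omega

lemma count_sub (A : Set ℕ) (hA : A ⊆ blockSet) (i : ℕ)
    (hF : ∀ x ∈ fam i, ∀ y ∈ fam i, x < y → ((y : ℤ) - x) ∉ diffSet A) :
    count A 1 (start (i + 1) + 1) ≤ 2 * (start i + 1) := by
  classical
  have h1 := count_split A 1 (start i + 1) (start (i + 1) + 1)
  have h2 := count_le A 1 (start i + 1)
  have h3 : count A (start i + 1) (start (i + 1) + 1) ≤ start i + 1 := by
    unfold count
    have hcopy : ∀ n ∈ (Ico (start i + 1) (start (i + 1) + 1)).filter (fun n => n ∈ A),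
        ∃ t x : ℕ, t < start i + 1 ∧ x ∈ fam i ∧ n = start i + t * gap i + x := by
      intro n hn
      simp only [mem_filter, mem_Ico] at hn
      obtain ⟨⟨ha, hb⟩, hc⟩ := hn
      obtain ⟨j, t, x, ht, hx, hn'⟩ := hA hc
      obtain ⟨hd, he⟩ := pos_range ht hx hn'
      have : j = i := by
        rcases lt_trichotomy j i with h | h | h
        · have := start_mono.monotone (show j + 1 ≤ i from h)
          omega
        · exact h
        · have := start_mono.monotone (show i + 1 ≤ j from h)
          omega
      subst this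
      exact ⟨t, x, ht, hx, hn'⟩
    have hmaps : ∀ n ∈ (Ico (start i + 1) (start (i + 1) + 1)).filter (fun n => n ∈ A),
        (n - start i) / gap i ∈ range (start i + 1) := by
      intro n hn
      obtain ⟨t, x, ht, hx, hn'⟩ := hcopy n hn
      have h4 := lt_gap hx
      have : (n - start i) / gap i = t := by
        rw [hn', show start i + t * gap i + x - start i = x + t * gap i by omega,
          Nat.add_mul_div_right _ _ (gap_pos i), Nat.div_eq_of_lt (by omega), zero_add]
      rw [this, mem_range]
      exact ht
    have hinj : Set.InjOn (fun n => (n - start i) / gap i)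
        (↑((Ico (start i + 1) (start (i + 1) + 1)).filter (fun n => n ∈ A)) : Set ℕ) := by
      intro n hn n' hn' heq
      obtain ⟨t, x, ht, hx, hnx⟩ := hcopy n hn
      obtain ⟨t', x', ht', hx', hnx'⟩ := hcopy n' hn'
      have h4 := lt_gap hx
      have h4' := lt_gap hx'
      have e1 : (n - start i) / gap i = t := by
        rw [hnx, show start i + t * gap i + x - start i = x + t * gap i by omega,
          Nat.add_mul_div_right _ _ (gap_pos i), Nat.div_eq_of_lt (by omega), zero_add]
      have e2 : (n' - start i) / gap i = t' := by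
        rw [hnx', show start i + t' * gap i + x' - start i = x' + t' * gap i by omega,
          Nat.add_mul_div_right _ _ (gap_pos i), Nat.div_eq_of_lt (by omega), zero_add]
      simp only at heq
      rw [e1, e2] at heq
      subst heq
      simp only [coe_filter, Set.mem_ofPred_eq] at hn hn'
      rcases lt_trichotomy x x' with h | h | h
      · exact absurd ⟨n', hn'.2, n, hn.2, by rw [hnx, hnx']; push_cast; ring⟩ (hF x hx x' hx' h)
      · rw [hnx, hnx', h]
      · exact absurd ⟨n, hn.2, n', hn'.2, by rw [hnx, hnx']; push_cast; ring⟩ (hF x' hx' x hx h)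
    have := card_le_card_of_injOn _ hmaps hinj
    rwa [card_range] at this
  omega

lemma count_block (i : ℕ) :
    (start i + 1) * (fam i).card ≤ count blockSet 1 (start (i + 1) + 1) := by
  classical
  unfold count
  have hmaps : ∀ p ∈ range (start i + 1) ×ˢ fam i, start i + p.1 * gap i + p.2 ∈
      (Ico 1 (start (i + 1) + 1)).filter (fun n => n ∈ blockSet) := by
    rintro ⟨t, x⟩ hp
    rw [mem_product, mem_range] at hp
    have := pos_range hp.1 hp.2 rfl
    simp only [mem_filter, mem_Ico]
    simp only at this
    exact ⟨⟨by omega, by omega⟩, i, t, x, hp.1, hp.2, rfl⟩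
  have hinj : Set.InjOn (fun p : ℕ × ℕ => start i + p.1 * gap i + p.2)
      (↑(range (start i + 1) ×ˢ fam i) : Set (ℕ × ℕ)) := by
    rintro ⟨t, x⟩ hp ⟨t', x'⟩ hp' heq
    rw [mem_coe, mem_product, mem_range] at hp hp'
    simp only at heq hp hp'
    rcases lt_trichotomy t t' with h | h | h
    · have := pos_sep hp.1 hp.2 rfl hp'.2 heq (Or.inr ⟨rfl, h⟩)
      omega
    · subst h
      have : x = x' := by omega
      rw [this]
    · have := pos_sep hp'.1 hp'.2 rfl hp.2 heq.symm (Or.inr ⟨rfl, h⟩)
      omega
  have := card_le_card_of_injOn _ hmaps hinj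
  rw [card_product, card_range] at this
  convert this

/-- if no difference of a good finite set `F` is a difference of `A ⊆ blockSet`, then the relative
lower density of `A` is at most `2 / |F|` -/
lemma low_le (A : Set ℕ) (hA : A ⊆ blockSet) (F : Finset ℕ) (hG : Good F)
    (hF : ∀ x ∈ F, ∀ y ∈ F, x < y → ((y : ℤ) - x) ∉ diffSet A) :
    relLowerDensity blockSet A ≤ 2 / F.card := by
  unfold relLowerDensity
  refine liminf_le_of_frequently_le ?_ ⟨0, by
    rw [eventually_map]
    exact Eventually.of_forall fun N => by positivity⟩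
  rw [frequently_atTop]
  intro n
  obtain ⟨i, hi, hfi⟩ := fam_surj F hG n
  refine ⟨start (i + 1), le_trans hi ((le_start i).trans (start_lt i).le), ?_⟩
  rw [← hfi] at hF ⊢
  have h1 := count_sub A hA i hF
  have h2 := count_block i
  have h1' : (count A 1 (start (i + 1) + 1) : ℝ) ≤ 2 * (start i + 1) := by exact_mod_cast h1
  have h2' : ((start i : ℝ) + 1) * (fam i).card ≤ count blockSet 1 (start (i + 1) + 1) := by
    exact_mod_cast h2
  have hc : 0 < (fam i).card := card_pos.2 (fam_good i).1
  have hc' : (0 : ℝ) < (fam i).card := by exact_mod_cast hc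
  have hs : (0 : ℝ) < (start i : ℝ) + 1 := by positivity
  have hpos : (0 : ℝ) < count blockSet 1 (start (i + 1) + 1) :=
    lt_of_lt_of_le (by positivity) h2'
  rw [div_le_div_iff₀ hpos hc']
  nlinarith

lemma good_insert (F : Finset ℕ) (hF : Good F) (z : ℕ) (hz : ∀ x ∈ F, 2 * x ≤ z) :
    Good (insert z F) ∧ z ∉ F := by
  obtain ⟨x0, hx0⟩ := hF.1
  have hz1 : 1 ≤ z := by
    have := hz x0 hx0
    have := hF.2.1 x0 hx0
    omega
  have hz' : ∀ x ∈ F, x < z := by
    intro x hx
    have := hz x hx
    have := hF.2.1 x hx
    omega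
  refine ⟨⟨⟨z, mem_insert_self _ _⟩, ?_, ?_⟩, fun h => lt_irrefl _ (hz' z h)⟩
  · intro x hx
    rcases mem_insert.1 hx with h | h
    · omega
    · exact hF.2.1 x h
  · intro x hx y hy hxy
    rcases mem_insert.1 hx with h | h
    · rcases mem_insert.1 hy with h' | h'
      · omega
      · have := hz' y h'
        omega
    · rcases mem_insert.1 hy with h' | h'
      · rw [h']; exact hz x h
      · exact hF.2.2 x h y h' hxy

lemma good_sub (S : Set ℕ) (hS : S.Infinite) (K : ℕ) :
    ∃ F : Finset ℕ, Good F ∧ ↑F ⊆ S ∧ F.card = K + 1 := by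
  induction K with
  | zero =>
    obtain ⟨z, hz, hz1⟩ := hS.exists_gt 0
    refine ⟨{z}, ⟨⟨z, by simp⟩, ?_, ?_⟩, by simpa using hz, by simp⟩
    · intro x hx
      rw [mem_singleton] at hx; omega
    · intro x hx y hy h
      rw [mem_singleton] at hx hy; omega
  | succ K ih =>
    obtain ⟨F, hF, hFS, hFc⟩ := ih
    obtain ⟨z, hz, hz1⟩ := hS.exists_gt (2 * F.sup id)
    obtain ⟨h1, h2⟩ := good_insert F hF z (by
      intro x hx
      have : x ≤ F.sup id := Finset.le_sup (f := id) hx
      omega)
    refine ⟨insert z F, h1, ?_, by rw [card_insert_of_notMem h2, hFc]⟩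
    intro x hx
    rw [mem_coe, mem_insert] at hx
    rcases hx with h | h
    · rw [h]; exact hz
    · exact hFS h

/-- the difference set of a subset of positive relative lower density meets the difference set of
every infinite set -/
theorem block_delta (A : Set ℕ) (hA : A ⊆ blockSet) (hd : 0 < relLowerDensity blockSet A)
    (S : Set ℕ) (hS : S.Infinite) : ∃ x ∈ S, ∃ y ∈ S, x < y ∧ ((y : ℤ) - x) ∈ diffSet A := by
  by_contra hcon
  push Not at hcon
  obtain ⟨K, hK⟩ := exists_nat_gt (2 / relLowerDensity blockSet A)
  obtain ⟨F, hF, hFS, hFc⟩ := good_sub S hS K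
  have h1 := low_le A hA F hF (fun x hx y hy hxy => hcon x (hFS hx) y (hFS hy) hxy)
  rw [hFc, le_div_iff₀ (by positivity)] at h1
  rw [div_lt_iff₀ hd] at hK
  push_cast at h1
  nlinarith

lemma nonempty_of_pos (A : Set ℕ) (hd : 0 < relLowerDensity blockSet A) : A.Nonempty := by
  by_contra h
  rw [Set.not_nonempty_iff_eq_empty] at h
  subst h
  have : relLowerDensity blockSet ∅ = 0 := by
    unfold relLowerDensity
    have : (fun N : ℕ => (count ∅ 1 (N + 1) : ℝ) / (count blockSet 1 (N + 1) : ℝ)) =
        fun _ => 0 := by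
      funext N
      simp [count]
    rw [this]
    exact liminf_const 0
  rw [this] at hd
  exact lt_irrefl _ hd

/-- the difference set of a subset of positive relative lower density is syndetic -/
theorem block_syndetic (A : Set ℕ) (hA : A ⊆ blockSet) (hd : 0 < relLowerDensity blockSet A) :
    IsSyndetic (diffSet A) := by
  by_contra hsyn
  unfold IsSyndetic at hsyn
  push Not at hsyn
  obtain ⟨a0, ha0⟩ := nonempty_of_pos A hd
  have hzero : (0 : ℤ) ∈ diffSet A := ⟨a0, ha0, a0, ha0, by ring⟩
  have hfree : ∀ L X : ℕ, ∃ x : ℕ, X ≤ x ∧ ∀ s ∈ diffSet A, (x : ℤ) ≤ s → (x : ℤ) + L ≤ s := by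
    intro L X
    obtain ⟨m, hm⟩ := hsyn (L + X + 1) (by omega)
    rcases lt_or_ge 0 m with h | h
    · obtain ⟨m', rfl⟩ := Int.eq_ofNat_of_zero_le h.le
      refine ⟨m' + X, by omega, fun s hs h1 => ?_⟩
      have := hm s hs (by push_cast at h1; omega)
      push_cast at h1 this ⊢
      omega
    · have h2 := hm 0 hzero h
      obtain ⟨m', hm'⟩ := Int.eq_ofNat_of_zero_le (a := -m - (L + X + 1 : ℕ)) (by omega)
      refine ⟨m' + 1 + X, by omega, fun s hs h1 => ?_⟩
      by_contra h3
      have h4 := hm (-s) (neg_mem_diffSet hs) (by push_cast at *; omega)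
      push_cast at *
      omega
  have hex : ∀ K : ℕ, ∃ F : Finset ℕ, Good F ∧ F.card = K + 1 ∧
      ∀ x ∈ F, ∀ y ∈ F, x < y → ((y : ℤ) - x) ∉ diffSet A := by
    intro K
    induction K with
    | zero =>
      refine ⟨{1}, good_one, by simp, ?_⟩
      intro x hx y hy h
      rw [mem_singleton] at hx hy
      omega
    | succ K ih =>
      obtain ⟨F, hF, hFc, hFd⟩ := ih
      set μ := F.sup id with hμ
      have hle : ∀ x ∈ F, x ≤ μ := fun x hx => Finset.le_sup (f := id) hx
      obtain ⟨x0, hx0, hfr⟩ := hfree (μ + 1) (2 * μ)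
      obtain ⟨h1, h2⟩ := good_insert F hF (x0 + μ) (by
        intro x hx
        have := hle x hx
        omega)
      refine ⟨insert (x0 + μ) F, h1, by rw [card_insert_of_notMem h2, hFc], ?_⟩
      intro x hx y hy hxy
      rcases mem_insert.1 hx with h | h
      · rcases mem_insert.1 hy with h' | h'
        · omega
        · have := hle y h'
          omega
      · rcases mem_insert.1 hy with h' | h'
        · intro hmem
          have h3 := hle x h
          have h4 := hF.2.1 x h
          have h5 := hfr _ hmem (by rw [h']; push_cast; omega)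
          rw [h'] at h5
          push_cast at h5
          omega
        · exact hFd x h y h' hxy
  obtain ⟨K, hK⟩ := exists_nat_gt (2 / relLowerDensity blockSet A)
  obtain ⟨F, hF, hFc, hFd⟩ := hex K
  have h1 := low_le A hA F hF hFd
  rw [hFc, le_div_iff₀ (by positivity)] at h1
  rw [div_lt_iff₀ hd] at hK
  push_cast at h1
  nlinarith

end Pool.Agent.Y754.SD
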