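import Pool.Agent.Results.MP_5a03e9_nt.NonSyndetic

/-!
# Sparse sets: windows of length `2 ^ k` with at most `k + 2` elements give Banach density zero
-/

set_option autoImplicit false

open Filter Finset

namespace Pool.Agent.Y754.SD

open Pool.Agent.Results.MP_5a03e9_nt.NonSyndetic

/-- the lower density of `A` relative to `E`: the liminf of `|A ∩ [1, N]| / |E ∩ [1, N]|` -/
noncomputable def relLowerDensity (E A : Set ℕ) : ℝ :=
  liminf (fun N : ℕ => (count A 1 (N + 1) : ℝ) / (count E 1 (N + 1) : ℝ)) atTop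

lemma count_split (S : Set ℕ) (L M N : ℕ) : count S L N ≤ count S L M + count S M N := by
  classical
  unfold count
  refine (card_le_card ?_).trans (card_union_le _ _)
  intro x hx
  simp only [mem_union, mem_filter, mem_Ico] at hx ⊢
  rcases lt_or_ge x M with h | h
  · exact Or.inl ⟨⟨hx.1.1, h⟩, hx.2⟩
  · exact Or.inr ⟨⟨h, hx.1.2⟩, hx.2⟩

lemma count_mono_right (S : Set ℕ) {M N N' : ℕ} (h : N ≤ N') : count S M N ≤ count S M N' := by
  classical
  unfold count
  refine card_le_card ?_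
  intro x hx
  simp only [mem_filter, mem_Ico] at hx ⊢
  exact ⟨⟨hx.1.1, by omega⟩, hx.2⟩

lemma count_windows (S : Set ℕ) (W c B : ℕ) (h : ∀ M, B ≤ M → count S M (M + W) ≤ c) (j : ℕ) :
    ∀ M, B ≤ M → count S M (M + j * W) ≤ j * c := by
  induction j with
  | zero =>
    intro M _
    have := count_le S M (M + 0 * W)
    simpa using this
  | succ j ih =>
    intro M hM
    have h1 := count_split S M (M + j * W) (M + (j + 1) * W)
    have h2 := ih M hM
    have h3 := h (M + j * W) (by omega)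
    have e : M + (j + 1) * W = M + j * W + W := by ring
    rw [e] at h1 ⊢
    calc _ ≤ _ := h1
      _ ≤ j * c + c := by omega
      _ = (j + 1) * c := by ring

lemma count_long (S : Set ℕ) (W c B : ℕ) (hW : 0 < W)
    (h : ∀ M, B ≤ M → count S M (M + W) ≤ c) (M N : ℕ) (hMN : M ≤ N) :
    count S M N ≤ B + ((N - M) / W + 1) * c := by
  have h1 := count_split S M (max M B) (max M B + ((N - M) / W + 1) * W)
  have h2 := count_windows S W c B h ((N - M) / W + 1) (max M B) (le_max_right _ _)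
  have h3 := count_le S M (max M B)
  have h4 : N - M < ((N - M) / W + 1) * W := by
    have h := Nat.div_add_mod (N - M) W
    have h' := Nat.mod_lt (N - M) hW
    calc N - M = W * ((N - M) / W) + (N - M) % W := h.symm
      _ < W * ((N - M) / W) + W := by omega
      _ = ((N - M) / W + 1) * W := by ring
  have h5 : N ≤ max M B + ((N - M) / W + 1) * W := by
    have : M ≤ max M B := le_max_left _ _
    omega
  have h6 := count_mono_right S (M := M) h5
  have h7 : max M B - M ≤ B := by omega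
  omega

lemma nebot_diff : (comap (fun q : ℕ × ℕ => (q.2 : ℝ) - (q.1 : ℝ)) atTop).NeBot := by
  have ht : Tendsto (fun n : ℕ => ((0 : ℕ), n)) atTop
      (comap (fun q : ℕ × ℕ => (q.2 : ℝ) - (q.1 : ℝ)) atTop) := by
    rw [tendsto_comap_iff]
    have : ((fun q : ℕ × ℕ => (q.2 : ℝ) - (q.1 : ℝ)) ∘ fun n : ℕ => ((0 : ℕ), n)) =
        fun n : ℕ => (n : ℝ) := by
      funext n; simp
    rw [this]
    exact tendsto_natCast_atTop_atTop
  exact ht.neBot

/-- If for every `k` all windows of length `2 ^ k` far out contain at most `k + 2` elements of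
`E`, then the upper Banach density of `E` is zero. -/
lemma banach_zero (E : Set ℕ)
    (h : ∀ k : ℕ, ∃ B : ℕ, ∀ M, B ≤ M → count E M (M + 2 ^ k) ≤ k + 2) :
    upperBanachDensity E = 0 := by
  have hne := nebot_diff
  have hnn : ∀ᶠ q : ℕ × ℕ in comap (fun q : ℕ × ℕ => (q.2 : ℝ) - (q.1 : ℝ)) atTop,
      0 ≤ (count E q.1 q.2 : ℝ) / ((q.2 : ℝ) - (q.1 : ℝ)) := by
    rw [eventually_comap]
    filter_upwards [eventually_gt_atTop (0 : ℝ)] with r hr q hq
    rw [hq]; positivity
  have hle1 : ∀ᶠ q : ℕ × ℕ in comap (fun q : ℕ × ℕ => (q.2 : ℝ) - (q.1 : ℝ)) atTop,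
      (count E q.1 q.2 : ℝ) / ((q.2 : ℝ) - (q.1 : ℝ)) ≤ 1 := by
    rw [eventually_comap]
    filter_upwards [eventually_gt_atTop (0 : ℝ)] with r hr q hq
    rw [hq, div_le_one hr, ← hq]
    have h1 : q.1 ≤ q.2 := by
      have : (q.1 : ℝ) < q.2 := by linarith
      exact_mod_cast this.le
    have h2 := count_le E q.1 q.2
    have h3 : ((count E q.1 q.2 : ℕ) : ℝ) ≤ ((q.2 - q.1 : ℕ) : ℝ) := by exact_mod_cast h2
    rwa [Nat.cast_sub h1] at h3
  refine le_antisymm ?_ ?_
  · refine le_of_forall_pos_le_add fun ε hε => ?_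
    rw [zero_add]
    obtain ⟨k, hk⟩ : ∃ k : ℕ, ((k : ℝ) + 2) / 2 ^ k < ε / 2 := by
      have h1 : Tendsto (fun k : ℕ => ((k : ℝ) + 2) / 2 ^ k) atTop (nhds 0) := by
        have ha : Tendsto (fun k : ℕ => (k : ℝ) / 2 ^ k) atTop (nhds 0) := by
          have := tendsto_pow_const_div_const_pow_of_one_lt 1 (r := (2 : ℝ)) (by norm_num)
          simpa using this
        have hb : Tendsto (fun k : ℕ => (2 : ℝ) / 2 ^ k) atTop (nhds 0) := by
          have hc := (tendsto_pow_atTop_nhds_zero_of_lt_one (r := (1 / 2 : ℝ)) (by norm_num)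
            (by norm_num)).const_mul 2
          rw [mul_zero] at hc
          refine hc.congr fun k => ?_
          rw [one_div, inv_pow]; rfl
        have := ha.add hb
        rw [add_zero] at this
        refine this.congr fun k => ?_
        rw [add_div]
      exact ((tendsto_order.1 h1).2 (ε / 2) (by positivity)).exists
    obtain ⟨B, hB⟩ := h k
    have hbd : ∀ᶠ q : ℕ × ℕ in comap (fun q : ℕ × ℕ => (q.2 : ℝ) - (q.1 : ℝ)) atTop,
        (count E q.1 q.2 : ℝ) / ((q.2 : ℝ) - (q.1 : ℝ)) ≤ ε := by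
      rw [eventually_comap]
      filter_upwards [eventually_gt_atTop (0 : ℝ),
        eventually_ge_atTop (((B : ℝ) + k + 2) / (ε / 2))] with r hr hr2 q hq
      rw [hq, div_le_iff₀ hr]
      have h1 : q.1 ≤ q.2 := by
        have : (q.1 : ℝ) < q.2 := by linarith
        exact_mod_cast this.le
      have h2 := count_long E (2 ^ k) (k + 2) B (by positivity) hB q.1 q.2 h1
      have h3 : (count E q.1 q.2 : ℝ) ≤ B + (((q.2 - q.1) / 2 ^ k : ℕ) + 1) * (k + 2) := by
        exact_mod_cast h2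
      have h4 : (((q.2 - q.1) / 2 ^ k : ℕ) : ℝ) ≤ r / 2 ^ k := by
        refine Nat.cast_div_le.trans ?_
        rw [Nat.cast_sub h1, hq]
        norm_num
      have h5 : (B : ℝ) + k + 2 ≤ ε / 2 * r := by
        rw [div_le_iff₀ (by positivity)] at hr2
        linarith
      have h6 : r * (((k : ℝ) + 2) / 2 ^ k) ≤ r * (ε / 2) :=
        mul_le_mul_of_nonneg_left hk.le hr.le
      have h7 : r / 2 ^ k * ((k : ℝ) + 2) = r * (((k : ℝ) + 2) / 2 ^ k) := by ring
      have h8 : (((q.2 - q.1) / 2 ^ k : ℕ) : ℝ) * ((k : ℝ) + 2) ≤ r / 2 ^ k * ((k : ℝ) + 2) :=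
        mul_le_mul_of_nonneg_right h4 (by positivity)
      calc (count E q.1 q.2 : ℝ) ≤ B + (((q.2 - q.1) / 2 ^ k : ℕ) + 1) * (k + 2) := h3
        _ = (B + k + 2) + (((q.2 - q.1) / 2 ^ k : ℕ) : ℝ) * ((k : ℝ) + 2) := by ring
        _ ≤ ε / 2 * r + r * (ε / 2) := by linarith
        _ = ε * r := by ring
    exact limsup_le_of_le (IsBoundedUnder.isCoboundedUnder_le ⟨0, by simpa using hnn⟩) hbd
  · exact le_limsup_of_frequently_le hnn.frequently ⟨1, by simpa using hle1⟩

lemma ratio_le_one {E A : Set ℕ} (h : A ⊆ E) (N : ℕ) :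
    (count A 1 (N + 1) : ℝ) / (count E 1 (N + 1) : ℝ) ≤ 1 := by
  have h1 : (count A 1 (N + 1) : ℝ) ≤ count E 1 (N + 1) := by exact_mod_cast count_mono h _ _
  exact div_le_one_of_le₀ h1 (by positivity)

lemma neg_mem_diffSet {A : Set ℕ} {d : ℤ} (h : d ∈ diffSet A) : -d ∈ diffSet A := by
  obtain ⟨a, ha, b, hb, rfl⟩ := h
  exact ⟨b, hb, a, ha, by ring⟩

end Pool.Agent.Y754.SD
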