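import Pool.Agent.Y754.SD.Basic

/-!
# A sparse set all of whose subsets of relative upper density one have all differences
-/

set_option autoImplicit false

open Filter Finset

namespace Pool.Agent.Y754.SD

open Pool.Agent.Results.MP_5a03e9_nt.NonSyndetic

/-- the squares `a ^ 2` and the numbers `a ^ 2 + v₂(a) + 1`, for `a ≥ 1` -/
def pairSet : Set ℕ := {n | ∃ a : ℕ, 1 ≤ a ∧ (n = a ^ 2 ∨ n = a ^ 2 + (padicValNat 2 a + 1))}

lemma val_le (a : ℕ) (ha : 1 ≤ a) : padicValNat 2 a + 1 ≤ a := by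
  have h1 : 2 ^ padicValNat 2 a ∣ a := pow_padicValNat_dvd
  have h2 := Nat.le_of_dvd (by omega) h1
  have h3 : padicValNat 2 a < 2 ^ padicValNat 2 a := Nat.lt_two_pow_self
  omega

lemma pairSet_infinite : pairSet.Infinite := by
  refine Set.infinite_of_not_bddAbove ?_
  rintro ⟨B, hB⟩
  have h1 : (B + 1) ^ 2 ∈ pairSet := ⟨B + 1, by omega, Or.inl rfl⟩
  have h2 := hB h1
  have h3 : B + 1 ≤ (B + 1) ^ 2 := by nlinarith
  omega

lemma pair_sep {a b n n' : ℕ} (ha : 1 ≤ a) (hab : a < b)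
    (hn : n = a ^ 2 ∨ n = a ^ 2 + (padicValNat 2 a + 1))
    (hn' : n' = b ^ 2 ∨ n' = b ^ 2 + (padicValNat 2 b + 1)) : n + a + 1 ≤ n' := by
  have h1 := val_le a ha
  have h2 : n ≤ a ^ 2 + a := by omega
  have h3 : b ^ 2 ≤ n' := by omega
  have h4 : (a + 1) ^ 2 ≤ b ^ 2 := Nat.pow_le_pow_left hab 2
  nlinarith

lemma pairSet_banach : upperBanachDensity pairSet = 0 := by
  classical
  refine banach_zero _ fun k => ⟨(2 ^ k) ^ 2 + 2 ^ k, fun M hM => ?_⟩
  set W := 2 ^ k with hW
  by_cases hne : ((Ico M (M + W)).filter (fun n => n ∈ pairSet)).Nonempty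
  · obtain ⟨n0, hn0⟩ := hne
    simp only [mem_filter, mem_Ico] at hn0
    obtain ⟨⟨h1, h2⟩, a, ha, hna⟩ := hn0
    have hlarge : ∀ b n : ℕ, 1 ≤ b → M ≤ n →
        (n = b ^ 2 ∨ n = b ^ 2 + (padicValNat 2 b + 1)) → W ≤ b := by
      intro b n hb hn hnb
      have h3 := val_le b hb
      have h4 : n ≤ b ^ 2 + b := by omega
      by_contra hlt
      push Not at hlt
      have h5 : b ^ 2 + b < W ^ 2 + W := by nlinarith
      omega
    have hsub : (Ico M (M + W)).filter (fun n => n ∈ pairSet) ⊆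
        {a ^ 2, a ^ 2 + (padicValNat 2 a + 1)} := by
      intro n hn
      simp only [mem_filter, mem_Ico] at hn
      obtain ⟨⟨h3, h4⟩, b, hb, hnb⟩ := hn
      rcases lt_trichotomy a b with h | h | h
      · exfalso
        have h5 := pair_sep ha h hna hnb
        have h6 := hlarge a n0 ha h1 hna
        omega
      · subst h
        simp only [mem_insert, mem_singleton]
        exact hnb
      · exfalso
        have h5 := pair_sep hb h hnb hna
        have h6 := hlarge b n hb h3 hnb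
        omega
    unfold count
    calc _ ≤ _ := card_le_card hsub
      _ ≤ 2 := card_le_two
      _ ≤ k + 2 := by omega
  · unfold count
    rw [not_nonempty_iff_eq_empty] at hne
    rw [hne]
    simp

lemma val_prog (m j : ℕ) : padicValNat 2 (2 ^ m * (2 * j + 1)) = m := by
  rw [padicValNat.mul (by positivity) (by omega), padicValNat.prime_pow,
    padicValNat.eq_zero_of_not_dvd (by omega), add_zero]

lemma count_pairSet (N : ℕ) : count pairSet 1 (N + 1) ≤ 2 * Nat.sqrt N := by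
  classical
  unfold count
  have hsub : (Ico 1 (N + 1)).filter (fun n => n ∈ pairSet) ⊆
      (Icc 1 (Nat.sqrt N)).image (fun a => a ^ 2) ∪
      (Icc 1 (Nat.sqrt N)).image (fun a => a ^ 2 + (padicValNat 2 a + 1)) := by
    intro n hn
    simp only [mem_filter, mem_Ico] at hn
    obtain ⟨⟨h1, h2⟩, a, ha, hna⟩ := hn
    have h3 : a ≤ Nat.sqrt N := by
      rw [Nat.le_sqrt']
      omega
    simp only [mem_union, mem_image, mem_Icc]
    rcases hna with h | h
    · exact Or.inl ⟨a, ⟨ha, h3⟩, h.symm⟩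
    · exact Or.inr ⟨a, ⟨ha, h3⟩, h.symm⟩
  refine (card_le_card hsub).trans ((card_union_le _ _).trans ?_)
  have h1 : ((Icc 1 (Nat.sqrt N)).image (fun a => a ^ 2)).card ≤ Nat.sqrt N := by
    refine card_image_le.trans ?_
    simp
  have h2 : ((Icc 1 (Nat.sqrt N)).image
      (fun a => a ^ 2 + (padicValNat 2 a + 1))).card ≤ Nat.sqrt N := by
    refine card_image_le.trans ?_
    simp
  omega

lemma count_missing (A : Set ℕ) (hA : A ⊆ pairSet) (m : ℕ)
    (hm : ∀ a : ℕ, 1 ≤ a → padicValNat 2 a = m → ¬ (a ^ 2 ∈ A ∧ a ^ 2 + (m + 1) ∈ A)) (N : ℕ) :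
    count A 1 (N + 1) + (Nat.sqrt N - 1) / 2 ^ (m + 1) ≤ count pairSet 1 (N + 1) := by
  classical
  have hsplit : count A 1 (N + 1) + count (pairSet \ A) 1 (N + 1) =
      count pairSet 1 (N + 1) := by
    unfold count
    rw [← card_union_of_disjoint]
    · congr 1
      ext n
      simp only [mem_union, mem_filter, Set.mem_diff]
      constructor
      · rintro (⟨h1, h2⟩ | ⟨h1, h2⟩)
        · exact ⟨h1, hA h2⟩
        · exact ⟨h1, h2.1⟩
      · rintro ⟨h1, h2⟩
        by_cases h : n ∈ A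
        · exact Or.inl ⟨h1, h⟩
        · exact Or.inr ⟨h1, h2, h⟩
    · rw [Finset.disjoint_left]
      intro n h1 h2
      simp only [mem_filter, Set.mem_diff] at h1 h2
      exact h2.2.2 h1.2
  rw [← hsplit]
  refine Nat.add_le_add_left ?_ _
  set J := (Nat.sqrt N - 1) / 2 ^ (m + 1) with hJ
  set e : ℕ → ℕ := fun j => if (2 ^ m * (2 * j + 1)) ^ 2 ∈ A
    then (2 ^ m * (2 * j + 1)) ^ 2 + (m + 1) else (2 ^ m * (2 * j + 1)) ^ 2 with he
  have hpos : ∀ j : ℕ, 1 ≤ 2 ^ m * (2 * j + 1) := fun j => Nat.succ_le_of_lt (by positivity)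
  have he1 : ∀ j : ℕ, e j = (2 ^ m * (2 * j + 1)) ^ 2 ∨
      e j = (2 ^ m * (2 * j + 1)) ^ 2 + (padicValNat 2 (2 ^ m * (2 * j + 1)) + 1) := by
    intro j
    simp only [he]
    split_ifs
    · right; rw [val_prog]
    · left; rfl
  have hinj : Set.InjOn e (↑(range J) : Set ℕ) := by
    intro i _ j _ hij
    rcases lt_trichotomy i j with h | h | h
    · exfalso
      have h1 : 2 ^ m * (2 * i + 1) < 2 ^ m * (2 * j + 1) :=
        Nat.mul_lt_mul_of_pos_left (by omega) (by positivity)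
      have h2 := pair_sep (hpos i) h1 (he1 i) (he1 j)
      omega
    · exact h
    · exfalso
      have h1 : 2 ^ m * (2 * j + 1) < 2 ^ m * (2 * i + 1) :=
        Nat.mul_lt_mul_of_pos_left (by omega) (by positivity)
      have h2 := pair_sep (hpos j) h1 (he1 j) (he1 i)
      omega
  have hmaps : ∀ j ∈ range J, e j ∈ (Ico 1 (N + 1)).filter (fun n => n ∈ pairSet \ A) := by
    intro j hj
    rw [mem_range] at hj
    have hb : 2 ^ m * (2 * j + 1) ≤ Nat.sqrt N - 1 := by
      have h1 : 2 ^ m * (2 * j + 1) ≤ (j + 1) * 2 ^ (m + 1) := by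
        rw [pow_succ]; nlinarith [Nat.one_le_two_pow (n := m)]
      have h2 : (j + 1) * 2 ^ (m + 1) ≤ J * 2 ^ (m + 1) := Nat.mul_le_mul_right _ hj
      have h3 : J * 2 ^ (m + 1) ≤ Nat.sqrt N - 1 := Nat.div_mul_le_self _ _
      omega
    have h4 := hpos j
    have h5 : (2 ^ m * (2 * j + 1) + 1) ^ 2 ≤ Nat.sqrt N ^ 2 := Nat.pow_le_pow_left (by omega) 2
    have h6 : Nat.sqrt N ^ 2 ≤ N := Nat.sqrt_le' N
    have h7 := val_le _ h4
    have h8 := he1 j
    have h9 : e j ≤ N := by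
      have : (2 ^ m * (2 * j + 1) + 1) ^ 2 =
        (2 ^ m * (2 * j + 1)) ^ 2 + 2 * (2 ^ m * (2 * j + 1)) + 1 := by ring
      omega
    have h10 : 1 ≤ (2 ^ m * (2 * j + 1)) ^ 2 := Nat.one_le_pow _ _ h4
    simp only [mem_filter, mem_Ico, Set.mem_diff]
    refine ⟨⟨by omega, by omega⟩, ⟨_, h4, h8⟩, ?_⟩
    simp only [he]
    split_ifs with h
    · intro h'
      exact hm _ h4 (val_prog m j) ⟨h, h'⟩
    · exact h
  unfold count
  have := card_le_card_of_injOn e hmaps hinj
  rw [card_range] at this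
  convert this

/-- every subset of `pairSet` of relative upper density one has every integer as a difference -/
theorem pairSet_diff (A : Set ℕ) (hA : A ⊆ pairSet) (hd : relUpperDensity pairSet A = 1) :
    diffSet A = Set.univ := by
  have hne : A.Nonempty := by
    by_contra h
    rw [Set.not_nonempty_iff_eq_empty] at h
    subst h
    have : relUpperDensity pairSet ∅ = 0 := by
      unfold relUpperDensity
      have : (fun N : ℕ => (count ∅ 1 (N + 1) : ℝ) / (count pairSet 1 (N + 1) : ℝ)) =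
          fun _ => 0 := by
        funext N
        simp [count]
      rw [this]
      exact limsup_const 0
    rw [this] at hd
    norm_num at hd
  rw [Set.eq_univ_iff_forall]
  intro d
  by_contra hd'
  have hm0 : d.natAbs ≠ 0 := by
    intro h
    rw [Int.natAbs_eq_zero] at h
    obtain ⟨a, ha⟩ := hne
    exact hd' ⟨a, ha, a, ha, by rw [h]; ring⟩
  obtain ⟨m, hm⟩ := Nat.exists_eq_succ_of_ne_zero hm0
  have hmiss : ∀ a : ℕ, 1 ≤ a → padicValNat 2 a = m →
      ¬ (a ^ 2 ∈ A ∧ a ^ 2 + (m + 1) ∈ A) := by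
    rintro a _ _ ⟨h1, h2⟩
    have h3 : ((m + 1 : ℕ) : ℤ) ∈ diffSet A := ⟨_, h2, _, h1, by push_cast; ring⟩
    rcases Int.natAbs_eq d with h | h
    · rw [hm] at h
      rw [h] at hd'
      exact hd' h3
    · rw [hm] at h
      rw [h] at hd'
      exact hd' (neg_mem_diffSet h3)
  have hle : relUpperDensity pairSet A ≤ 1 - 1 / 2 ^ (m + 3) := by
    unfold relUpperDensity
    refine limsup_le_of_le (IsBoundedUnder.isCoboundedUnder_le ⟨0, by
      rw [eventually_map]
      exact Eventually.of_forall fun N => by positivity⟩) ?_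
    filter_upwards [eventually_ge_atTop ((2 ^ (m + 3)) ^ 2)] with N hN
    set R := Nat.sqrt N with hR
    have h1 : 2 ^ (m + 3) ≤ R := by rw [hR, Nat.le_sqrt']; exact hN
    have h2 := count_pairSet N
    have h3 := count_missing A hA m hmiss N
    rw [← hR] at h2 h3
    have hRpos : 0 < R := lt_of_lt_of_le (by positivity) h1
    have hq : (R : ℝ) / 2 ^ (m + 2) ≤ ((R - 1) / 2 ^ (m + 1) : ℕ) := by
      have ha : R - 1 < ((R - 1) / 2 ^ (m + 1) + 1) * 2 ^ (m + 1) := by
        have h := Nat.div_add_mod (R - 1) (2 ^ (m + 1))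
        have h' := Nat.mod_lt (R - 1) (y := 2 ^ (m + 1)) (by positivity)
        calc R - 1 = 2 ^ (m + 1) * ((R - 1) / 2 ^ (m + 1)) + (R - 1) % 2 ^ (m + 1) := h.symm
          _ < 2 ^ (m + 1) * ((R - 1) / 2 ^ (m + 1)) + 2 ^ (m + 1) := by omega
          _ = ((R - 1) / 2 ^ (m + 1) + 1) * 2 ^ (m + 1) := by ring
      have hb : R ≤ ((R - 1) / 2 ^ (m + 1) + 1) * 2 ^ (m + 1) := by omega
      have hc : (R : ℝ) ≤ (((R - 1) / 2 ^ (m + 1) : ℕ) + 1) * 2 ^ (m + 1) := by exact_mod_cast hb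
      have hd : (2 : ℝ) ^ (m + 3) ≤ R := by exact_mod_cast h1
      have he : (2 : ℝ) ^ (m + 3) = 4 * 2 ^ (m + 1) := by ring
      have hf : (2 : ℝ) ^ (m + 2) = 2 * 2 ^ (m + 1) := by ring
      rw [hf, div_le_iff₀ (by positivity)]
      have hg : (0 : ℝ) < 2 ^ (m + 1) := by positivity
      nlinarith
    rcases Nat.eq_zero_or_pos (count pairSet 1 (N + 1)) with h0 | h0
    · rw [h0]
      simp only [Nat.cast_zero, div_zero, sub_nonneg]
      rw [div_le_one (by positivity)]
      exact one_le_pow₀ (by norm_num)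
    · have h0' : (0 : ℝ) < count pairSet 1 (N + 1) := by exact_mod_cast h0
      rw [div_le_iff₀ h0']
      have h3' : (count A 1 (N + 1) : ℝ) + ((R - 1) / 2 ^ (m + 1) : ℕ) ≤
          count pairSet 1 (N + 1) := by exact_mod_cast h3
      have h2' : (count pairSet 1 (N + 1) : ℝ) ≤ 2 * R := by exact_mod_cast h2
      have h4 : 1 / 2 ^ (m + 3) * (count pairSet 1 (N + 1) : ℝ) ≤ R / 2 ^ (m + 2) := by
        calc 1 / 2 ^ (m + 3) * (count pairSet 1 (N + 1) : ℝ) ≤ 1 / 2 ^ (m + 3) * (2 * R) :=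
              mul_le_mul_of_nonneg_left h2' (by positivity)
          _ = R / 2 ^ (m + 2) := by
              have : (2 : ℝ) ^ (m + 3) = 2 * 2 ^ (m + 2) := by ring
              rw [this]; field_simp
      nlinarith
  rw [hd] at hle
  have : (0 : ℝ) < 1 / 2 ^ (m + 3) := by positivity
  linarith

end Pool.Agent.Y754.SD
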